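import Mathlib

set_option autoImplicit false

/-!
Every infinite group without involutions is represented by a tournament with at most 11 orbits.
-/

namespace Pool.Agent.Results.MP_4ac3ef_co.BoundedOrbits

open Cardinal

universe u

section defs

/-- `E` is (the arc relation of) a tournament. -/
def IsTournament {V : Type u} (E : V → V → Prop) : Prop :=
  (∀ x, ¬ E x x) ∧ ∀ x y, x ≠ y → ((E x y ∧ ¬ E y x) ∨ (E y x ∧ ¬ E x y))

/-- The orbit of the vertex `x` under the automorphism group of `E`. -/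
def orbit {V : Type u} (E : V → V → Prop) (x : V) : Set V := {y | ∃ f : E ≃r E, f x = y}

/-- The set of all orbits. -/
def orbits {V : Type u} (E : V → V → Prop) : Set (Set V) := {O | ∃ x, O = orbit E x}

end defs

section sequences

theorem exists_seq {I α : Type u} [LinearOrder I] [WellFoundedLT I] (d : α)
    (R : I → (I → α) → α → Prop) (hR : ∀ i p, ∃ v, R i p v) :
    ∃ f : I → α, ∀ i, ∃ p, (∀ j, j < i → p j = f j) ∧ R i p (f i) := by
  classical
  let F : (i : I) → ((j : I) → j < i → α) → α := fun i prev =>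
    (hR i (fun j => if h : j < i then prev j h else d)).choose
  let f : I → α := (wellFounded_lt (α := I)).fix F
  refine ⟨f, fun i => ⟨fun j => if j < i then f j else d, ?_, ?_⟩⟩
  · intro j hj
    simp [hj]
  · have h1 : f i = F i (fun j _ => f j) := WellFounded.fix_eq _ F i
    rw [h1]
    exact (hR i (fun j => if h : j < i then f j else d)).choose_spec

theorem avoid {G ι : Type u} (h : #ι < #G) (f : ι → G) : ∃ x, ∀ i, f i ≠ x := by
  by_contra hcon
  push Not at hcon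
  exact absurd (Cardinal.mk_le_of_surjective (f := f) hcon) (not_le.2 h)

theorem exists_generic (G : Type u) [Group G] [Infinite G] :
    ∃ (I : Type u) (_ : LinearOrder I) (_ : WellFoundedLT I) (g s t : I → G),
      Function.Surjective g ∧
      (∀ i j k l, j < i → k ≤ l → (s i)⁻¹ * t j ≠ (s k)⁻¹ * t l) ∧
      (∀ i j k l, j < i → k ≤ l → ((s i)⁻¹ * g i)⁻¹ * t j ≠ ((s k)⁻¹ * g k)⁻¹ * t l) := by
  classical
  have hinf : ℵ₀ ≤ #G := Cardinal.aleph0_le_mk G
  obtain ⟨e⟩ : Nonempty ((#G).ord.ToType ≃ G) := Cardinal.eq.1 (Cardinal.mk_ord_toType _)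
  have hIic : ∀ i : (#G).ord.ToType, #(Set.Iic i) < #G := by
    intro i
    have h1 : #(Set.Iio i) < #G := by
      have := Cardinal.mk_Iio_lt i (by simp)
      simpa using this
    have h2 : Set.Iic i = insert i (Set.Iio i) := by
      ext x
      simp [le_iff_eq_or_lt]
    rw [h2]
    refine lt_of_le_of_lt Cardinal.mk_insert_le ?_
    exact Cardinal.add_lt_of_lt hinf h1 (Cardinal.one_lt_aleph0.trans_le hinf)
  have h3 : ∀ i : (#G).ord.ToType, #((Set.Iic i × Set.Iic i × Set.Iic i) ⊕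
      (Set.Iic i × Set.Iic i × Set.Iic i)) < #G := by
    intro i
    rw [Cardinal.mk_sum, Cardinal.mk_prod, Cardinal.mk_prod]
    simp only [Cardinal.lift_id]
    have h4 := Cardinal.mul_lt_of_lt hinf (hIic i) (Cardinal.mul_lt_of_lt hinf (hIic i) (hIic i))
    exact Cardinal.add_lt_of_lt hinf h4 h4
  let R : (#G).ord.ToType → ((#G).ord.ToType → G × G) → G × G → Prop := fun i p v =>
    (∀ j k l, j < i → k < i → l < i → v.1⁻¹ * (p j).2 ≠ (p k).1⁻¹ * (p l).2) ∧
    (∀ j k l, j < i → k < i → l < i →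
      (v.1⁻¹ * e i)⁻¹ * (p j).2 ≠ ((p k).1⁻¹ * e k)⁻¹ * (p l).2) ∧
    (∀ a b k, a ≤ i → b < i → k ≤ i →
      (if a = i then v.1 else (p a).1)⁻¹ * (p b).2 ≠ (if k = i then v.1 else (p k).1)⁻¹ * v.2) ∧
    (∀ a b k, a ≤ i → b < i → k ≤ i →
      ((if a = i then v.1 else (p a).1)⁻¹ * e a)⁻¹ * (p b).2 ≠
        ((if k = i then v.1 else (p k).1)⁻¹ * e k)⁻¹ * v.2)
  have hR : ∀ i p, ∃ v, R i p v := by
    intro i p
    obtain ⟨x, hx⟩ := avoid (h3 i) (Sum.elim
      (fun q => (p q.1).2 * ((p q.2.1).1⁻¹ * (p q.2.2).2)⁻¹)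
      (fun q => e i * (((p q.2.1).1⁻¹ * e q.2.1)⁻¹ * (p q.2.2).2) * ((p q.1).2)⁻¹))
    let q : (#G).ord.ToType → G := fun k => if k = i then x else (p k).1
    obtain ⟨y, hy⟩ := avoid (h3 i) (Sum.elim
      (fun w => (q w.1) * ((q w.2.1)⁻¹ * (p w.2.2).2))
      (fun w => ((q w.1)⁻¹ * e w.1) * (((q w.2.1)⁻¹ * e w.2.1)⁻¹ * (p w.2.2).2)))
    refine ⟨(x, y), ?_, ?_, ?_, ?_⟩
    · intro j k l hj hk hl h
      apply hx (Sum.inl (⟨j, hj.le⟩, ⟨k, hk.le⟩, ⟨l, hl.le⟩))
      show (p j).2 * ((p k).1⁻¹ * (p l).2)⁻¹ = x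
      rw [← h]
      group
    · intro j k l hj hk hl h
      apply hx (Sum.inr (⟨j, hj.le⟩, ⟨k, hk.le⟩, ⟨l, hl.le⟩))
      show e i * (((p k).1⁻¹ * e k)⁻¹ * (p l).2) * ((p j).2)⁻¹ = x
      rw [← h]
      group
    · intro a b k ha hb hk h
      apply hy (Sum.inl (⟨k, hk⟩, ⟨a, ha⟩, ⟨b, hb.le⟩))
      show (if k = i then x else (p k).1) * ((if a = i then x else (p a).1)⁻¹ * (p b).2) = y
      simp only at h
      rw [h]
      group
    · intro a b k ha hb hk h
      apply hy (Sum.inr (⟨k, hk⟩, ⟨a, ha⟩, ⟨b, hb.le⟩))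
      show ((if k = i then x else (p k).1)⁻¹ * e k) *
        (((if a = i then x else (p a).1)⁻¹ * e a)⁻¹ * (p b).2) = y
      simp only at h
      rw [h]
      group
  obtain ⟨f, hf⟩ := exists_seq ((1 : G), (1 : G)) R hR
  refine ⟨(#G).ord.ToType, inferInstance, inferInstance, e, fun i => (f i).1, fun i => (f i).2,
    e.surjective, ?_, ?_⟩
  · intro i j k l hji hkl
    rcases lt_or_ge l i with hli | hil
    · obtain ⟨p, hp, h1, -, -, -⟩ := hf i
      have := h1 j k l hji (hkl.trans_lt hli) hli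
      rwa [hp j hji, hp k (hkl.trans_lt hli), hp l hli] at this
    · obtain ⟨p, hp, -, -, h1, -⟩ := hf l
      have := h1 i j k hil (hji.trans_le hil) hkl
      have e1 : ∀ a, a ≤ l → (if a = l then (f l).1 else (p a).1) = (f a).1 := by
        intro a ha
        split_ifs with h
        · rw [h]
        · rw [hp a (lt_of_le_of_ne ha h)]
      rwa [e1 i hil, e1 k hkl, hp j (hji.trans_le hil)] at this
  · intro i j k l hji hkl
    rcases lt_or_ge l i with hli | hil
    · obtain ⟨p, hp, -, h1, -, -⟩ := hf i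
      have := h1 j k l hji (hkl.trans_lt hli) hli
      rwa [hp j hji, hp k (hkl.trans_lt hli), hp l hli] at this
    · obtain ⟨p, hp, -, -, -, h1⟩ := hf l
      have := h1 i j k hil (hji.trans_le hil) hkl
      have e1 : ∀ a, a ≤ l → (if a = l then (f l).1 else (p a).1) = (f a).1 := by
        intro a ha
        split_ifs with h
        · rw [h]
        · rw [hp a (lt_of_le_of_ne ha h)]
      rwa [e1 i hil, e1 k hkl, hp j (hji.trans_le hil)] at this

/-- Strictly monotone bijections of a well-order are trivial. -/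
theorem mono_id {I : Type u} [LinearOrder I] [WellFoundedLT I] {a b : I → I} (ha : StrictMono a)
    (hb : StrictMono b) (hab : ∀ i, a (b i) = i) (i : I) : a i = i := by
  apply le_antisymm _ ha.le_apply
  have h1 : i ≤ b i := hb.le_apply
  have h2 := ha.monotone h1
  rwa [hab] at h2

/-- The half graph. -/
def hg {G I : Type u} [Group G] [LinearOrder I] (s t : I → G) : Set G :=
  {x | ∃ k l, k ≤ l ∧ x = (s k)⁻¹ * t l}

theorem hg_iff {G I : Type u} [Group G] [LinearOrder I] {s t : I → G}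
    (h : ∀ i j k l, j < i → k ≤ l → (s i)⁻¹ * t j ≠ (s k)⁻¹ * t l) (i j : I) :
    (s i)⁻¹ * t j ∈ hg s t ↔ i ≤ j := by
  constructor
  · rintro ⟨k, l, hkl, he⟩
    by_contra hlt
    exact h i j k l (not_le.1 hlt) hkl he
  · intro hij
    exact ⟨i, j, hij, rfl⟩

theorem s_inj {G I : Type u} [Group G] [LinearOrder I] {s t : I → G}
    (h : ∀ i j k l, j < i → k ≤ l → (s i)⁻¹ * t j ≠ (s k)⁻¹ * t l) : Function.Injective s := by
  have key : ∀ i j, j < i → s i ≠ s j := by
    intro i j hij he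
    exact h i j j j hij le_rfl (by rw [he])
  intro i j he
  rcases lt_trichotomy i j with hlt | heq | hlt
  · exact absurd he.symm (key j i hlt)
  · exact heq
  · exact absurd he (key i j hlt)

/-- A map preserves the relation `g⁻¹ h ∈ M`. -/
def Pres {G : Type u} [Group G] (M : Set G) (σ : G → G) : Prop :=
  ∀ g h, g⁻¹ * h ∈ M ↔ (σ g)⁻¹ * σ h ∈ M

theorem rigid_aux {G I : Type u} [Group G] [LinearOrder I] [WellFoundedLT I] {s t : I → G}
    (h : ∀ i j k l, j < i → k ≤ l → (s i)⁻¹ * t j ≠ (s k)⁻¹ * t l)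
    {σ : G → G} (hS : Pres (Set.range s) σ) (hT : Pres (Set.range t) σ) (hQ : Pres (hg s t) σ)
    (g : G) : ∃ a : I → I, StrictMono a ∧ ∀ i, σ (g * s i) = σ g * s (a i) := by
  have ha : ∀ i, ∃ j, s j = (σ g)⁻¹ * σ (g * s i) := by
    intro i
    apply (hS g (g * s i)).1
    rw [inv_mul_cancel_left]
    exact ⟨i, rfl⟩
  have hb : ∀ i, ∃ j, t j = (σ g)⁻¹ * σ (g * t i) := by
    intro i
    apply (hT g (g * t i)).1
    rw [inv_mul_cancel_left]
    exact ⟨i, rfl⟩
  choose a ha using ha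
  choose b hb using hb
  have ha' : ∀ i, σ (g * s i) = σ g * s (a i) := by
    intro i
    rw [ha i, mul_inv_cancel_left]
  have hb' : ∀ i, σ (g * t i) = σ g * t (b i) := by
    intro i
    rw [hb i, mul_inv_cancel_left]
  have key : ∀ i j, i ≤ j ↔ a i ≤ b j := by
    intro i j
    rw [← hg_iff h i j, ← hg_iff h (a i) (b j)]
    have h1 := hQ (g * s i) (g * t j)
    rw [ha' i, hb' j] at h1
    have e1 : ∀ x y z : G, (x * y)⁻¹ * (x * z) = y⁻¹ * z := by
      intro x y z; group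
    rw [e1, e1] at h1
    exact h1
  refine ⟨a, ?_, ha'⟩
  intro i j hij
  have h1 : a i ≤ b i := (key i i).1 le_rfl
  have h2 : b i < a j := by
    rw [← not_le, ← key j i]
    exact not_le.2 hij
  exact h1.trans_lt h2

theorem rigid {G I : Type u} [Group G] [LinearOrder I] [WellFoundedLT I] {s t : I → G}
    (h : ∀ i j k l, j < i → k ≤ l → (s i)⁻¹ * t j ≠ (s k)⁻¹ * t l)
    {σ τ : G → G} (h1 : ∀ g, σ (τ g) = g) (h2 : ∀ g, τ (σ g) = g)
    (hS : Pres (Set.range s) σ) (hT : Pres (Set.range t) σ) (hQ : Pres (hg s t) σ)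
    (g : G) (i : I) : σ (g * s i) = σ g * s i := by
  have hinv : ∀ M : Set G, Pres M σ → Pres M τ := by
    intro M hM x y
    have := hM (τ x) (τ y)
    rw [h1, h1] at this
    exact this.symm
  obtain ⟨a, ha, ha'⟩ := rigid_aux h hS hT hQ g
  obtain ⟨b, hb, hb'⟩ := rigid_aux h (hinv _ hS) (hinv _ hT) (hinv _ hQ) (σ g)
  have hab : ∀ i, a (b i) = i := by
    intro i
    apply s_inj h
    have e1 := hb' i
    rw [h2] at e1
    have e2 := ha' (b i)
    rw [← e1, h1] at e2
    exact (mul_left_cancel e2).symm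
  rw [ha', mono_id ha hb hab]

end sequences

section tournament

variable {G : Type u} [Group G]

/-- The vertices: six labels and five copies of the group. -/
abbrev Vtx (G : Type u) := Fin 6 ⊕ (Fin 5 × G)

/-- The arcs. -/
def arc (P : Set G) (M : Fin 5 → Fin 5 → Set G) : Vtx G → Vtx G → Prop
  | .inl a, .inl b => a < b
  | .inl a, .inr p => p.1.val.testBit (a.val / 2) = true
  | .inr p, .inl a => ¬ p.1.val.testBit (a.val / 2) = true
  | .inr p, .inr q =>
      (p.1 = q.1 ∧ p.2⁻¹ * q.2 ∈ P) ∨ (p.1 < q.1 ∧ p.2⁻¹ * q.2 ∈ M p.1 q.1) ∨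
        (q.1 < p.1 ∧ q.2⁻¹ * p.2 ∉ M q.1 p.1)

/-- Positive cones. -/
def Cone (P : Set G) : Prop := (1 : G) ∉ P ∧ ∀ x, x ≠ 1 → ((x ∈ P ∧ x⁻¹ ∉ P) ∨ (x⁻¹ ∈ P ∧ x ∉ P))

theorem exists_cone (h : ∀ g : G, orderOf g ≠ 2) : ∃ P : Set G, Cone P := by
  refine ⟨{g | WellOrderingRel g g⁻¹}, ?_, ?_⟩
  · intro h1
    rw [Set.mem_ofPred_eq, inv_one] at h1
    exact irrefl _ h1
  · intro x hx
    have hne : x ≠ x⁻¹ := by
      intro he
      apply h x
      rw [orderOf_eq_prime_iff]
      refine ⟨?_, hx⟩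
      rw [pow_two]
      nth_rw 2 [he]
      exact mul_inv_cancel x
    rw [Set.mem_ofPred_eq, Set.mem_ofPred_eq, inv_inv]
    rcases trichotomous_of WellOrderingRel x x⁻¹ with h1 | h1 | h1
    · exact Or.inl ⟨h1, fun h2 => irrefl _ (_root_.trans h1 h2)⟩
    · exact absurd h1 hne
    · exact Or.inr ⟨h1, fun h2 => irrefl _ (_root_.trans h1 h2)⟩

theorem isTournament {P : Set G} (hP : Cone P) (M : Fin 5 → Fin 5 → Set G) :
    IsTournament (arc P M) := by
  refine ⟨?_, ?_⟩
  · rintro (a | p)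
    · exact lt_irrefl a
    · rintro (h | h | h)
      · rw [inv_mul_cancel] at h
        exact hP.1 h.2
      · exact lt_irrefl _ h.1
      · exact lt_irrefl _ h.1
  · rintro (a | p) (b | q) hne
    · have : a ≠ b := fun h => hne (by rw [h])
      show (a < b ∧ ¬ b < a) ∨ (b < a ∧ ¬ a < b)
      rcases lt_or_gt_of_ne this with h | h
      · exact Or.inl ⟨h, h.not_gt⟩
      · exact Or.inr ⟨h, h.not_gt⟩
    · show (_ ∧ ¬ ¬ _) ∨ (¬ _ ∧ ¬ _)
      tauto
    · show (¬ _ ∧ ¬ _) ∨ (_ ∧ ¬ ¬ _)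
      tauto
    · obtain ⟨X, g⟩ := p
      obtain ⟨Y, h⟩ := q
      show (((X = Y ∧ g⁻¹ * h ∈ P) ∨ (X < Y ∧ g⁻¹ * h ∈ M X Y) ∨ (Y < X ∧ h⁻¹ * g ∉ M Y X)) ∧
        ¬ ((Y = X ∧ h⁻¹ * g ∈ P) ∨ (Y < X ∧ h⁻¹ * g ∈ M Y X) ∨ (X < Y ∧ g⁻¹ * h ∉ M X Y))) ∨
        (((Y = X ∧ h⁻¹ * g ∈ P) ∨ (Y < X ∧ h⁻¹ * g ∈ M Y X) ∨ (X < Y ∧ g⁻¹ * h ∉ M X Y)) ∧
        ¬ ((X = Y ∧ g⁻¹ * h ∈ P) ∨ (X < Y ∧ g⁻¹ * h ∈ M X Y) ∨ (Y < X ∧ h⁻¹ * g ∉ M Y X)))
      rcases lt_trichotomy X Y with hlt | heq | hlt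
      · have h1 : ¬ Y < X := hlt.not_gt
        have h2 : X ≠ Y := hlt.ne
        have h3 : Y ≠ X := hlt.ne'
        by_cases hm : g⁻¹ * h ∈ M X Y
        · simp only [hlt, hm, h1, h2, h3]; tauto
        · simp only [hlt, hm, h1, h2, h3]; tauto
      · subst heq
        have hgh : g⁻¹ * h ≠ 1 := by
          intro h1
          apply hne
          rw [inv_mul_eq_one.1 h1]
        have h2 := hP.2 _ hgh
        have h3 : (g⁻¹ * h)⁻¹ = h⁻¹ * g := by group
        rw [h3] at h2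
        have h4 : ¬ X < X := lt_irrefl X
        simp only [h4]
        tauto
      · have h1 : ¬ X < Y := hlt.not_gt
        have h2 : Y ≠ X := hlt.ne
        have h3 : X ≠ Y := hlt.ne'
        by_cases hm : h⁻¹ * g ∈ M Y X
        · simp only [hlt, hm, h1, h2, h3]; tauto
        · simp only [hlt, hm, h1, h2, h3]; tauto

/-- Left multiplication. -/
def lmul (P : Set G) (M : Fin 5 → Fin 5 → Set G) (c : G) : arc P M ≃r arc P M where
  toEquiv := (Equiv.refl _).sumCongr ((Equiv.refl _).prodCongr (Equiv.mulLeft c))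
  map_rel_iff' := by
    have e1 : ∀ x y : G, (c * x)⁻¹ * (c * y) = x⁻¹ * y := by
      intro x y; group
    rintro (a | p) (b | q)
    · exact Iff.rfl
    · exact Iff.rfl
    · exact Iff.rfl
    · show ((_ ∧ (c * p.2)⁻¹ * (c * q.2) ∈ P) ∨ (_ ∧ (c * p.2)⁻¹ * (c * q.2) ∈ _) ∨
        (_ ∧ (c * q.2)⁻¹ * (c * p.2) ∉ _)) ↔ _
      rw [e1, e1]
      exact Iff.rfl

/-- Left multiplication as a homomorphism. -/
def lhom (P : Set G) (M : Fin 5 → Fin 5 → Set G) : G →* (arc P M ≃r arc P M) where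
  toFun := lmul P M
  map_one' := by
    apply RelIso.ext
    rintro (a | p)
    · rfl
    · show Sum.inr (p.1, 1 * p.2) = Sum.inr p
      rw [one_mul]
  map_mul' := by
    intro c d
    apply RelIso.ext
    rintro (a | p)
    · rfl
    · show Sum.inr (p.1, c * d * p.2) = Sum.inr (p.1, c * (d * p.2))
      rw [mul_assoc]

/-- Modules of size two. -/
def TwoMod {V : Type u} (E : V → V → Prop) (x y : V) : Prop :=
  x ≠ y ∧ ∀ z, z ≠ x → z ≠ y → (E z x ↔ E z y)

theorem TwoMod.map {V : Type u} {E : V → V → Prop} {x y : V} (h : TwoMod E x y) (f : E ≃r E) :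
    TwoMod E (f x) (f y) := by
  refine ⟨fun he => h.1 (f.injective he), ?_⟩
  intro z hzx hzy
  obtain ⟨w, rfl⟩ := f.surjective z
  have := h.2 w (fun he => hzx (by rw [he])) (fun he => hzy (by rw [he]))
  rw [← f.map_rel_iff, ← f.map_rel_iff (a := w) (b := y)] at this
  exact this

/-- The properties of the connection sets which are needed. -/
structure Good (M : Fin 5 → Fin 5 → Set G) : Prop where
  hub : ∀ X, X ≠ 0 → M 0 X = {1}

theorem arc_hub {P : Set G} {M : Fin 5 → Fin 5 → Set G} (hM : Good M) (g h : G) {X : Fin 5}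
    (hX : X ≠ 0) : arc P M (.inr (0, g)) (.inr (X, h)) ↔ g = h := by
  have h1 : (0 : Fin 5) < X := Fin.pos_iff_ne_zero.2 hX
  show ((0 = X ∧ _) ∨ (0 < X ∧ g⁻¹ * h ∈ M 0 X) ∨ (X < 0 ∧ _)) ↔ _
  rw [hM.hub X hX, Set.mem_singleton_iff, inv_mul_eq_one]
  have h2 : ¬ X < 0 := h1.not_gt
  have h3 : (0 : Fin 5) ≠ X := h1.ne
  tauto

theorem arc_hub' {P : Set G} (hP : Cone P) {M : Fin 5 → Fin 5 → Set G} (hM : Good M) (g h : G)
    {X : Fin 5} (hX : X ≠ 0) : arc P M (.inr (X, h)) (.inr (0, g)) ↔ g ≠ h := by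
  have hT := (isTournament hP M).2 (.inr (0, g)) (.inr (X, h)) (by
    intro he
    exact hX (Prod.mk.inj (Sum.inr.inj he)).1.symm)
  rw [ne_eq, ← arc_hub (P := P) hM g h hX]
  constructor
  · intro h1 h2
    rcases hT with h3 | h3
    · exact h3.2 h1
    · exact h3.2 h2
  · intro h1
    rcases hT with h3 | h3
    · exact absurd h3.1 h1
    · exact h3.1

theorem twoMod_lab {P : Set G} (hP : Cone P) {M : Fin 5 → Fin 5 → Set G} (hM : Good M)
    [Infinite G] {x y : Vtx G} (h : TwoMod (arc P M) x y) : ∃ a, x = .inl a := by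
  rcases x with a | ⟨X, g⟩
  · exact ⟨a, rfl⟩
  exfalso
  obtain ⟨hne, h⟩ := h
  -- an element different from a given one
  obtain ⟨g', hg'⟩ := exists_ne g
  rcases y with b | ⟨Y, k⟩
  · by_cases hX : X = 0
    · subst hX
      have h1 := h (.inr (1, g)) (by simp) (by simp)
      have h2 := h (.inr (1, g')) (by simp) (by simp)
      rw [arc_hub' hP hM g g (by decide)] at h1
      rw [arc_hub' hP hM g g' (by decide)] at h2
      have h3 : ∀ u v : G, arc P M (.inr (1, u)) (.inl b) ↔ arc P M (.inr (1, v)) (.inl b) :=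
        fun _ _ => Iff.rfl
      rw [h3 g g', ← h2] at h1
      exact absurd rfl (h1.2 hg'.symm)
    · have h1 := h (.inr (0, g)) (by
        intro he
        exact hX (Prod.mk.inj (Sum.inr.inj he)).1.symm) (by simp)
      have h2 := h (.inr (0, g')) (by
        intro he
        exact hX (Prod.mk.inj (Sum.inr.inj he)).1.symm) (by simp)
      rw [arc_hub hM g g hX] at h1
      rw [arc_hub hM g' g hX] at h2
      have h3 : ∀ u v : G, arc P M (.inr (0, u)) (.inl b) ↔ arc P M (.inr (0, v)) (.inl b) :=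
        fun _ _ => Iff.rfl
      rw [h3 g g', ← h2] at h1
      exact hg' (h1.1 rfl)
  · by_cases hXY : X = Y
    · subst hXY
      have hgk : g ≠ k := fun he => hne (by rw [he])
      by_cases hX : X = 0
      · subst hX
        have h1 := h (.inr (1, g)) (by simp) (by simp)
        rw [arc_hub' hP hM g g (by decide), arc_hub' hP hM k g (by decide)] at h1
        exact (h1.2 hgk.symm) rfl
      · have h0 : ∀ u v : G, (Sum.inr (0, u) : Vtx G) ≠ Sum.inr (X, v) := by
          intro u v he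
          exact hX (Prod.mk.inj (Sum.inr.inj he)).1.symm
        have h1 := h (.inr (0, g)) (h0 _ _) (h0 _ _)
        rw [arc_hub hM g g hX, arc_hub hM g k hX] at h1
        exact hgk (h1.1 rfl)
    · have hcode : ∀ X Y : Fin 5, X ≠ Y →
          ∃ a : Fin 6, ¬ (X.val.testBit (a.val / 2) = true ↔ Y.val.testBit (a.val / 2) = true) := by
        decide
      obtain ⟨a, ha⟩ := hcode X Y hXY
      exact ha (h (.inl a) (by simp) (by simp))

theorem lab_twoMod (P : Set G) (M : Fin 5 → Fin 5 → Set G) (a : Fin 6) :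
    ∃ y, TwoMod (arc P M) (.inl a) y := by
  have h1 : ∀ a : Fin 6, ∃ b : Fin 6, a ≠ b ∧ a.val / 2 = b.val / 2 ∧
      ∀ c : Fin 6, c ≠ a → c ≠ b → (c < a ↔ c < b) := by decide
  obtain ⟨b, hab, he, hc⟩ := h1 a
  refine ⟨.inl b, fun h => hab (Sum.inl.inj h), ?_⟩
  rintro (c | p) hca hcb
  · exact hc c (fun h => hca (by rw [h])) (fun h => hcb (by rw [h]))
  · show ¬ p.1.val.testBit (a.val / 2) = true ↔ ¬ p.1.val.testBit (b.val / 2) = true
    rw [he]

theorem fix_lab {P : Set G} (hP : Cone P) {M : Fin 5 → Fin 5 → Set G} (hM : Good M)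
    [Infinite G] (f : arc P M ≃r arc P M) (a : Fin 6) : f (.inl a) = .inl a := by
  have key : ∀ f : arc P M ≃r arc P M, ∃ φ : Fin 6 → Fin 6, StrictMono φ ∧
      ∀ a, f (.inl a) = .inl (φ a) := by
    intro f
    have h1 : ∀ a, ∃ b, f (.inl a) = .inl b := by
      intro a
      obtain ⟨y, hy⟩ := lab_twoMod P M a
      exact twoMod_lab hP hM (hy.map f)
    choose φ hφ using h1
    refine ⟨φ, ?_, hφ⟩
    intro a b hab
    have h2 : arc P M (f (.inl a)) (f (.inl b)) := f.map_rel_iff.2 hab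
    rw [hφ, hφ] at h2
    exact h2
  obtain ⟨φ, h1, h2⟩ := key f
  obtain ⟨ψ, h3, h4⟩ := key f.symm
  rw [h2, mono_id h1 h3]
  intro i
  have h5 := h4 i
  rw [RelIso.symm_apply_eq, h2] at h5
  exact (Sum.inl.inj h5).symm

theorem copies {P : Set G} (hP : Cone P) {M : Fin 5 → Fin 5 → Set G} (hM : Good M)
    [Infinite G] (f : arc P M ≃r arc P M) :
    ∃ σ : G → G, ∀ X g, f (.inr (X, g)) = .inr (X, σ g) := by
  have h1 : ∀ X g, ∃ h, f (.inr (X, g)) = .inr (X, h) := by
    intro X g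
    rcases hf : f (.inr (X, g)) with a | ⟨Y, h⟩
    · rw [← fix_lab hP hM f a] at hf
      exact absurd (f.injective hf) (by simp)
    · have hcode : ∀ X Y : Fin 5,
          (∀ a : Fin 6, (X.val.testBit (a.val / 2) = true ↔ Y.val.testBit (a.val / 2) = true)) →
          X = Y := by
        decide
      have hXY : X = Y := by
        apply hcode
        intro a
        have h2 : arc P M (f (.inl a)) (f (.inr (X, g))) ↔ arc P M (.inl a) (.inr (X, g)) :=
          f.map_rel_iff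
        rw [fix_lab hP hM, hf] at h2
        exact h2.symm
      exact ⟨h, by rw [hXY]⟩
  choose s hs using h1
  refine ⟨s 0, ?_⟩
  intro X g
  rw [hs]
  by_cases hX : X = 0
  · rw [hX]
  · have h2 : arc P M (f (.inr (0, g))) (f (.inr (X, g))) ↔ _ := f.map_rel_iff
    rw [arc_hub hM g g hX, hs, hs, arc_hub hM _ _ hX] at h2
    rw [h2.2 rfl]

theorem arc_lt {P : Set G} {M : Fin 5 → Fin 5 → Set G} (g h : G) {X Y : Fin 5}
    (hXY : X < Y) : arc P M (.inr (X, g)) (.inr (Y, h)) ↔ g⁻¹ * h ∈ M X Y := by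
  show ((X = Y ∧ _) ∨ (X < Y ∧ _) ∨ (Y < X ∧ _)) ↔ _
  have h2 : ¬ Y < X := hXY.not_gt
  have h3 : X ≠ Y := hXY.ne
  tauto

/-- The connection sets. -/
noncomputable def conn {I : Type u} [LinearOrder I] (s v t : I → G) (X Y : Fin 5) : Set G :=
  if X = 0 then {1} else
  if X = 1 ∧ Y = 2 then Set.range s else
  if X = 1 ∧ Y = 3 then Set.range v else
  if X = 1 ∧ Y = 4 then Set.range t else
  if X = 2 ∧ Y = 4 then hg s t else
  if X = 3 ∧ Y = 4 then hg v t else ∅

theorem good_conn {I : Type u} [LinearOrder I] (s v t : I → G) : Good (conn s v t) := by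
  refine ⟨fun X _ => ?_⟩
  rw [conn, if_pos rfl]

theorem main {I : Type u} [LinearOrder I] [WellFoundedLT I] [Infinite G] {P : Set G}
    (hP : Cone P) (g s t : I → G) (hg : Function.Surjective g)
    (h1 : ∀ i j k l, j < i → k ≤ l → (s i)⁻¹ * t j ≠ (s k)⁻¹ * t l)
    (h2 : ∀ i j k l, j < i → k ≤ l → ((s i)⁻¹ * g i)⁻¹ * t j ≠ ((s k)⁻¹ * g k)⁻¹ * t l) :
    Function.Bijective (lhom P (conn s (fun i => (s i)⁻¹ * g i) t)) := by
  have hM := good_conn s (fun i => (s i)⁻¹ * g i) t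
  constructor
  · intro c d hcd
    have h3 := DFunLike.congr_fun hcd (Sum.inr ((0 : Fin 5), (1 : G)))
    have h4 : (Sum.inr ((0 : Fin 5), c * 1) : Vtx G) = Sum.inr ((0 : Fin 5), d * 1) := h3
    have h5 := (Prod.mk.inj (Sum.inr.inj h4)).2
    simpa using h5
  · intro f
    obtain ⟨σ, hσ⟩ := copies hP hM f
    obtain ⟨τ, hτ⟩ := copies hP hM f.symm
    have e1 : ∀ x, σ (τ x) = x := by
      intro x
      have h3 := hτ 0 x
      rw [RelIso.symm_apply_eq, hσ] at h3
      exact (Prod.mk.inj (Sum.inr.inj h3)).2.symm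
    have e2 : ∀ x, τ (σ x) = x := by
      intro x
      have h3 := hσ 0 x
      have h4 : f.symm (.inr (0, σ x)) = .inr (0, x) := by rw [← h3, RelIso.symm_apply_apply]
      rw [hτ] at h4
      exact (Prod.mk.inj (Sum.inr.inj h4)).2
    have hpres : ∀ X Y : Fin 5, X < Y → Pres (conn s (fun i => (s i)⁻¹ * g i) t X Y) σ := by
      intro X Y hXY x y
      rw [← arc_lt (P := P) x y hXY, ← arc_lt (P := P) (σ x) (σ y) hXY, ← hσ, ← hσ,
        f.map_rel_iff]
    have p12 : Pres (Set.range s) σ := hpres 1 2 (by decide)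
    have p13 : Pres (Set.range fun i => (s i)⁻¹ * g i) σ := hpres 1 3 (by decide)
    have p14 : Pres (Set.range t) σ := hpres 1 4 (by decide)
    have p24 : Pres (BoundedOrbits.hg s t) σ := hpres 2 4 (by decide)
    have p34 : Pres (BoundedOrbits.hg (fun i => (s i)⁻¹ * g i) t) σ := hpres 3 4 (by decide)
    have r1 := rigid h1 e1 e2 p12 p14 p24
    have r2 := rigid h2 e1 e2 p13 p14 p34
    have r3 : ∀ x y : G, σ (x * y) = σ x * y := by
      intro x y
      obtain ⟨i, rfl⟩ := hg y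
      have h3 := r2 (x * s i) i
      rw [r1 x i] at h3
      simpa [mul_assoc] using h3
    refine ⟨σ 1, ?_⟩
    apply RelIso.ext
    rintro (a | ⟨X, x⟩)
    · show Sum.inl a = _
      rw [fix_lab hP hM]
    · show Sum.inr (X, σ 1 * x) = _
      rw [hσ, ← r3, one_mul]

theorem orbits_le (P : Set G) (M : Fin 5 → Fin 5 → Set G) : (orbits (arc P M)).encard ≤ 11 := by
  have h1 : orbits (arc P M) ⊆ Set.range (fun z : Fin 6 ⊕ Fin 5 =>
      orbit (arc P M) (Sum.elim (fun a => Sum.inl a) (fun X => Sum.inr (X, (1 : G))) z)) := by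
    rintro O ⟨x, rfl⟩
    rcases x with a | ⟨X, g⟩
    · exact ⟨.inl a, rfl⟩
    · refine ⟨.inr X, ?_⟩
      ext y
      constructor
      · rintro ⟨f, hf⟩
        refine ⟨f * lmul P M g⁻¹, ?_⟩
        rw [← hf]
        show f (Sum.inr (X, g⁻¹ * g)) = _
        rw [inv_mul_cancel]
        rfl
      · rintro ⟨f, hf⟩
        refine ⟨f * lmul P M g, ?_⟩
        rw [← hf]
        show f (Sum.inr (X, g * 1)) = _
        rw [mul_one]
  refine (Set.encard_le_encard h1).trans ?_
  rw [← Set.image_univ]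
  refine (Set.encard_image_le _ _).trans ?_
  rw [Set.encard_univ, ENat.card_eq_coe_fintype_card]
  simp

end tournament

/-- Every infinite group without elements of order `2` is the automorphism group of a tournament
with at most `11` orbits on the vertices. -/
theorem result : ∀ (G : Type u) [Group G] [Infinite G], (∀ g : G, orderOf g ≠ 2) →
    ∃ (V : Type u) (E : V → V → Prop), IsTournament E ∧ Nonempty (G ≃* (E ≃r E)) ∧
      (orbits E).encard ≤ 11 := by
  intro G _ _ hG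
  obtain ⟨P, hP⟩ := exists_cone hG
  obtain ⟨I, _, _, g, s, t, hg, h1, h2⟩ := exists_generic G
  exact ⟨Vtx G, arc P (conn s (fun i => (s i)⁻¹ * g i) t), isTournament hP _,
    ⟨MulEquiv.ofBijective _ (main hP g s t hg h1 h2)⟩, orbits_le _ _⟩

end Pool.Agent.Results.MP_4ac3ef_co.BoundedOrbits
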